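import Mathlib

set_option autoImplicit false

namespace Pool.Agent.Results.MP_5ac669_co.ComplementSymmetry

open Finset

/-- The `(n-k) x k` rectangle of boxes `(r, c)`, rows `1..n-k`, columns `1..k`. -/
def Rect (n k : ℕ) : Finset (ℕ × ℕ) := Icc 1 (n - k) ×ˢ Icc 1 k

/-- Young diagrams in the rectangle. -/
def IsDiagram (n k : ℕ) (T : Finset (ℕ × ℕ)) : Prop :=
  T ⊆ Rect n k ∧ ∀ b ∈ T, ∀ b' ∈ Rect n k, b'.1 ≤ b.1 → b'.2 ≤ b.2 → b' ∈ T

/-- The rotation of the rectangle. -/
def rot (n k : ℕ) (b : ℕ × ℕ) : ℕ × ℕ := (n - k + 1 - b.1, k + 1 - b.2)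

/-- The complementary partition. -/
def compl (n k : ℕ) (lam : Finset (ℕ × ℕ)) : Finset (ℕ × ℕ) :=
  (Rect n k \ lam).image (rot n k)

/-- Sequences of length `N = k (n-k)` which list every box exactly once. -/
abbrev Listing (n k : ℕ) : Type := Fin (k * (n - k)) ≃ {b : ℕ × ℕ // b ∈ Rect n k}

/-- The set of the first `j` boxes of a sequence. -/
def first {n k : ℕ} (S : Listing n k) (j : ℕ) : Finset (ℕ × ℕ) :=
  (univ.filter fun t : Fin (k * (n - k)) => t.val < j).image fun t => (S t).val

/-- The sequence `S` is a path to `lam`. -/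
def IsPath {n k : ℕ} (lam : Finset (ℕ × ℕ)) (S : Listing n k) : Prop :=
  ∀ j ≤ k * (n - k), IsDiagram n k (lam \ first S j) ∧
    IsDiagram n k (lam ∪ ((Rect n k \ lam) ∩ first S j))

/-- The label `r - c + k` of the box `(r, c)`. -/
def label (k : ℕ) (b : ℕ × ℕ) : ℕ := b.1 + k - b.2

/-- `m S j i` is the number of the first `j` boxes with label `i`, and `0` for `i = n`. -/
def m {n k : ℕ} (S : Listing n k) (j i : ℕ) : ℕ :=
  if i = n then 0
  else (univ.filter fun t : Fin (k * (n - k)) => t.val < j ∧ label k (S t).val = i).card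

/-- The field of rational functions in `n + 1` variables over the complex numbers. -/
abbrev K (n : ℕ) : Type := FractionRing (MvPolynomial (Fin (n + 1)) ℂ)

/-- The variable `hbar`. -/
noncomputable def hbar (n : ℕ) : K n :=
  algebraMap (MvPolynomial (Fin (n + 1)) ℂ) (K n) (MvPolynomial.X 0)

/-- The variable `a_i`, `1 ≤ i ≤ n`. -/
noncomputable def a (n i : ℕ) : K n :=
  algebraMap (MvPolynomial (Fin (n + 1)) ℂ) (K n) (MvPolynomial.X (Fin.ofNat (n + 1) i))

/-- The weight `w_j`. -/
noncomputable def w {n k : ℕ} (S : Listing n k) (j : ℕ) : K n :=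
  ∑ i ∈ Icc 1 (n - 1), (hbar n * (m S j i : K n) * ((m S j i : K n) - (m S j (i + 1) : K n))
    + (m S j i : K n) * (a n (i + 1) - a n i))

open Classical in
/-- The sum over all paths to `lam` of the products of the `1 / w_j`. -/
noncomputable def V (n k : ℕ) (lam : Finset (ℕ × ℕ)) : K n :=
  ∑ S ∈ (univ : Finset (Listing n k)).filter (fun S => IsPath lam S),
    ∏ j ∈ Icc 1 (k * (n - k)), 1 / w S j

/-- `α` fixes the complex numbers and `hbar` and sends `a_i` to `-a_{n+1-i}`. -/
def IsAlpha (n : ℕ) (α : K n ≃ₐ[ℂ] K n) : Prop :=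
  α (hbar n) = hbar n ∧ ∀ i, 1 ≤ i → i ≤ n → α (a n i) = -a n (n + 1 - i)

section proofs

variable {n k : ℕ}

theorem mem_rect {b : ℕ × ℕ} : b ∈ Rect n k ↔ (1 ≤ b.1 ∧ b.1 ≤ n - k) ∧ 1 ≤ b.2 ∧ b.2 ≤ k := by
  simp [Rect]

theorem rot_mem {b : ℕ × ℕ} (h : b ∈ Rect n k) : rot n k b ∈ Rect n k := by
  rw [mem_rect] at h ⊢
  simp only [rot]
  omega

theorem rot_rot {b : ℕ × ℕ} (h : b ∈ Rect n k) : rot n k (rot n k b) = b := by
  rw [mem_rect] at h
  ext <;> simp only [rot] <;> omega

theorem rot_inj {b b' : ℕ × ℕ} (h : b ∈ Rect n k) (h' : b' ∈ Rect n k)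
    (e : rot n k b = rot n k b') : b = b' := by
  rw [← rot_rot h, ← rot_rot h', e]

/-- The rotation as a permutation of the boxes of the rectangle. -/
def rotE (n k : ℕ) : {b : ℕ × ℕ // b ∈ Rect n k} ≃ {b : ℕ × ℕ // b ∈ Rect n k} where
  toFun b := ⟨rot n k b.val, rot_mem b.2⟩
  invFun b := ⟨rot n k b.val, rot_mem b.2⟩
  left_inv b := Subtype.ext (rot_rot b.2)
  right_inv b := Subtype.ext (rot_rot b.2)

theorem mem_image_rot {T : Finset (ℕ × ℕ)} (hT : T ⊆ Rect n k) {b : ℕ × ℕ}
    (hb : b ∈ Rect n k) : rot n k b ∈ T.image (rot n k) ↔ b ∈ T := by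
  rw [mem_image]
  constructor
  · rintro ⟨c, hc, e⟩
    rwa [← rot_inj (hT hc) hb e]
  · exact fun h => ⟨b, h, rfl⟩

theorem image_rot_subset {T : Finset (ℕ × ℕ)} (hT : T ⊆ Rect n k) :
    T.image (rot n k) ⊆ Rect n k := by
  intro b hb
  obtain ⟨c, hc, rfl⟩ := mem_image.mp hb
  exact rot_mem (hT hc)

theorem diag_rot {T : Finset (ℕ × ℕ)} (hT : T ⊆ Rect n k) :
    IsDiagram n k (T.image (rot n k)) ↔ IsDiagram n k (Rect n k \ T) := by
  constructor
  · rintro ⟨_, h⟩
    refine ⟨sdiff_subset, ?_⟩
    intro b hb b' hb' h1 h2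
    rw [mem_sdiff] at hb ⊢
    refine ⟨hb', fun hT' => hb.2 ?_⟩
    rw [← mem_image_rot hT hb.1]
    apply h (rot n k b') ((mem_image_rot hT hb').mpr hT') _ (rot_mem hb.1)
    · simp only [rot]; omega
    · simp only [rot]; omega
  · rintro ⟨_, h⟩
    refine ⟨image_rot_subset hT, ?_⟩
    intro b hb b' hb' h1 h2
    have hbR := image_rot_subset hT hb
    by_contra hcon
    have e1 : rot n k b' ∈ Rect n k \ T := by
      rw [mem_sdiff]
      refine ⟨rot_mem hb', fun hh => hcon ?_⟩
      have := (mem_image_rot hT (rot_mem hb')).mpr hh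
      rwa [rot_rot hb'] at this
    have e2 := h _ e1 (rot n k b) (rot_mem hbR) (by simp only [rot]; omega)
      (by simp only [rot]; omega)
    rw [mem_sdiff] at e2
    apply e2.2
    rw [← mem_image_rot hT (rot_mem hbR), rot_rot hbR]
    exact hb

theorem image_rot_sdiff {A B : Finset (ℕ × ℕ)} (hA : A ⊆ Rect n k) (hB : B ⊆ Rect n k) :
    A.image (rot n k) \ B.image (rot n k) = (A \ B).image (rot n k) := by
  ext b
  constructor
  · intro h
    rw [mem_sdiff] at h
    have hb := image_rot_subset hA h.1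
    rw [← rot_rot hb, mem_image_rot (sdiff_subset.trans hA) (rot_mem hb), mem_sdiff]
    rw [← rot_rot hb, mem_image_rot hA (rot_mem hb), mem_image_rot hB (rot_mem hb)] at h
    exact h
  · intro h
    have hb := image_rot_subset (sdiff_subset.trans hA) h
    rw [mem_sdiff, ← rot_rot hb, mem_image_rot hA (rot_mem hb), mem_image_rot hB (rot_mem hb)]
    rw [← rot_rot hb, mem_image_rot (sdiff_subset.trans hA) (rot_mem hb), mem_sdiff] at h
    exact h

theorem image_rot_inter {A B : Finset (ℕ × ℕ)} (hA : A ⊆ Rect n k) (hB : B ⊆ Rect n k) :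
    A.image (rot n k) ∩ B.image (rot n k) = (A ∩ B).image (rot n k) := by
  have := (image_inter_of_injOn A B (f := rot n k) (by
    intro x hx y hy e
    have hx' : x ∈ Rect n k := by
      rcases hx with h | h
      · exact hA h
      · exact hB h
    have hy' : y ∈ Rect n k := by
      rcases hy with h | h
      · exact hA h
      · exact hB h
    exact rot_inj hx' hy' e))
  exact this.symm

theorem rect_eq : (Rect n k).image (rot n k) = Rect n k := by
  apply Subset.antisymm (image_rot_subset (Subset.refl _))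
  intro b hb
  rw [← rot_rot hb]
  exact mem_image_of_mem _ (rot_mem hb)

theorem first_subset (S : Listing n k) (j : ℕ) : first S j ⊆ Rect n k := by
  intro b hb
  obtain ⟨t, _, rfl⟩ := mem_image.mp hb
  exact (S t).2

theorem first_rot (S : Listing n k) (j : ℕ) :
    first (S.trans (rotE n k)) j = (first S j).image (rot n k) := by
  rw [first, first, image_image]
  rfl

theorem isPath_rot {lam : Finset (ℕ × ℕ)} (hlam : lam ⊆ Rect n k) (S : Listing n k) :
    IsPath (compl n k lam) (S.trans (rotE n k)) ↔ IsPath lam S := by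
  have key : ∀ j, (IsDiagram n k (compl n k lam \ first (S.trans (rotE n k)) j) ∧
      IsDiagram n k (compl n k lam ∪ ((Rect n k \ compl n k lam) ∩
        first (S.trans (rotE n k)) j))) ↔
      (IsDiagram n k (lam \ first S j) ∧ IsDiagram n k (lam ∪ ((Rect n k \ lam) ∩ first S j))) := by
    intro j
    have hF := first_subset S j
    rw [first_rot]
    set F := first S j with hFdef
    have e1 : compl n k lam \ F.image (rot n k) = ((Rect n k \ lam) \ F).image (rot n k) :=
      image_rot_sdiff sdiff_subset hF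
    have e2 : Rect n k \ compl n k lam = lam.image (rot n k) := by
      have h := image_rot_sdiff (Subset.refl (Rect n k))
        (sdiff_subset : Rect n k \ lam ⊆ Rect n k)
      rw [rect_eq, Finset.sdiff_sdiff_eq_self hlam] at h
      exact h
    have e3 : compl n k lam ∪ ((Rect n k \ compl n k lam) ∩ F.image (rot n k)) =
        ((Rect n k \ lam) ∪ (lam ∩ F)).image (rot n k) := by
      rw [e2, image_rot_inter hlam hF, compl, ← image_union]
    rw [e1, e3, diag_rot (sdiff_subset.trans sdiff_subset),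
      diag_rot (union_subset sdiff_subset (inter_subset_left.trans hlam))]
    have f1 : Rect n k \ ((Rect n k \ lam) \ F) = lam ∪ ((Rect n k \ lam) ∩ F) := by
      ext b
      simp only [mem_sdiff, mem_union, mem_inter]
      have h1 : b ∈ lam → b ∈ Rect n k := fun h => hlam h
      have h2 : b ∈ F → b ∈ Rect n k := fun h => hF h
      tauto
    have f2 : Rect n k \ ((Rect n k \ lam) ∪ (lam ∩ F)) = lam \ F := by
      ext b
      simp only [mem_sdiff, mem_union, mem_inter]
      have h1 : b ∈ lam → b ∈ Rect n k := fun h => hlam h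
      tauto
    rw [f1, f2]
    exact and_comm
  exact forall₂_congr fun j _ => key j

theorem label_rot {b : ℕ × ℕ} (hkn : k ≤ n) (hb : b ∈ Rect n k) :
    label k (rot n k b) = n - label k b := by
  rw [mem_rect] at hb
  simp only [label, rot]
  omega

theorem label_bounds {b : ℕ × ℕ} (hb : b ∈ Rect n k) : 1 ≤ label k b ∧ label k b ≤ n - 1 := by
  rw [mem_rect] at hb
  simp only [label]
  omega

theorem m_zero (S : Listing n k) (j : ℕ) : m S j 0 = 0 := by
  rw [m]
  split_ifs with h
  · rfl
  · rw [card_eq_zero, filter_eq_empty_iff]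
    intro t _ ht
    have := (label_bounds (S t).2).1
    omega

theorem m_n (S : Listing n k) (j : ℕ) : m S j n = 0 := by
  rw [m, if_pos rfl]

theorem m_rot (hkn : k ≤ n) (S : Listing n k) (j : ℕ) {i : ℕ} (hi : i ≤ n) :
    m (S.trans (rotE n k)) j i = m S j (n - i) := by
  rcases Nat.eq_zero_or_pos i with rfl | hi0
  · rw [m_zero, Nat.sub_zero, m_n]
  rcases Nat.lt_or_ge i n with hin | hin
  · rw [m, m, if_neg (by omega), if_neg (by omega)]
    congr 1
    apply filter_congr
    intro t _
    have e : ((S.trans (rotE n k)) t).val = rot n k (S t).val := rfl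
    rw [e, label_rot hkn (S t).2]
    have := label_bounds (S t).2
    omega
  · have : i = n := by omega
    subst this
    rw [m_n, Nat.sub_self, m_zero]

theorem shift_sum {R : Type*} [CommRing R] (f : ℕ → R) (h0 : f 0 = 0) (hn : f n = 0) :
    ∑ i ∈ Icc 1 (n - 1), f i * f (i - 1) = ∑ i ∈ Icc 1 (n - 1), f i * f (i + 1) := by
  rcases Nat.eq_zero_or_pos n with rfl | hpos
  · simp
  have e1 : ∑ i ∈ Icc 1 (n - 1), f i * f (i + 1) = ∑ i ∈ range n, f i * f (i + 1) := by
    obtain ⟨p, rfl⟩ : ∃ p, n = p + 1 := ⟨n - 1, by omega⟩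
    rw [sum_range_succ', h0, zero_mul, add_zero, Nat.add_sub_cancel]
    rw [range_eq_Ico, sum_Ico_add' (fun i => f i * f (i + 1)) 0 p 1]
    rfl
  have e2 : ∑ i ∈ Icc 1 (n - 1), f i * f (i - 1) = ∑ i ∈ range n, f i * f (i + 1) := by
    obtain ⟨p, rfl⟩ : ∃ p, n = p + 1 := ⟨n - 1, by omega⟩
    rw [sum_range_succ, hn, mul_zero, add_zero, Nat.add_sub_cancel]
    have : ∑ i ∈ Icc 1 p, f i * f (i - 1) = ∑ i ∈ Ico (0 + 1) (p + 1), f i * f (i - 1) := rfl
    rw [this, ← sum_Ico_add' (fun i => f i * f (i - 1)) 0 p 1, range_eq_Ico]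
    apply sum_congr rfl
    intro i _
    simp only [Nat.add_sub_cancel]
    ring
  rw [e1, e2]

theorem alpha_w (hkn : k ≤ n) {α : K n ≃ₐ[ℂ] K n} (hα : IsAlpha n α) (S : Listing n k)
    (j : ℕ) : α (w (S.trans (rotE n k)) j) = w S j := by
  have h1 : α (w (S.trans (rotE n k)) j) = ∑ i ∈ Icc 1 (n - 1),
      (hbar n * (m S j (n - i) : K n) * ((m S j (n - i) : K n) - (m S j (n - i - 1) : K n))
        + (m S j (n - i) : K n) * (a n (n - i + 1) - a n (n - i))) := by
    rw [w, map_sum]
    apply sum_congr rfl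
    intro i hi
    rw [mem_Icc] at hi
    rw [m_rot hkn S j (by omega), m_rot hkn S j (by omega), map_add, map_mul, map_mul, map_mul,
      map_sub, map_sub, map_natCast, map_natCast, hα.1, hα.2 i hi.1 (by omega),
      hα.2 (i + 1) (by omega) (by omega)]
    have e1 : n - (i + 1) = n - i - 1 := by omega
    have e2 : n + 1 - (i + 1) = n - i := by omega
    have e3 : n + 1 - i = n - i + 1 := by omega
    rw [e1, e2, e3]
    ring
  have h2 : ∑ i ∈ Icc 1 (n - 1),
      (hbar n * (m S j (n - i) : K n) * ((m S j (n - i) : K n) - (m S j (n - i - 1) : K n))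
        + (m S j (n - i) : K n) * (a n (n - i + 1) - a n (n - i))) =
      ∑ i ∈ Icc 1 (n - 1),
      (hbar n * (m S j i : K n) * ((m S j i : K n) - (m S j (i - 1) : K n))
        + (m S j i : K n) * (a n (i + 1) - a n i)) := by
    apply sum_bij (fun i _ => n - i)
    · intro i hi
      rw [mem_Icc] at hi ⊢
      omega
    · intro i hi i' hi' e
      rw [mem_Icc] at hi hi'
      omega
    · intro i hi
      rw [mem_Icc] at hi
      exact ⟨n - i, by rw [mem_Icc]; omega, by omega⟩
    · intro i _
      rfl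
  rw [h1, h2, w, ← sub_eq_zero, ← sum_sub_distrib]
  have h3 := shift_sum (n := n) (fun i => (m S j i : K n)) (by rw [m_zero]; simp)
    (by rw [m_n]; simp)
  have h4 : ∑ i ∈ Icc 1 (n - 1),
      (hbar n * (m S j i : K n) * ((m S j i : K n) - (m S j (i - 1) : K n))
        + (m S j i : K n) * (a n (i + 1) - a n i) -
      (hbar n * (m S j i : K n) * ((m S j i : K n) - (m S j (i + 1) : K n))
        + (m S j i : K n) * (a n (i + 1) - a n i))) =
      hbar n * (∑ i ∈ Icc 1 (n - 1), (m S j i : K n) * (m S j (i + 1) : K n) -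
        ∑ i ∈ Icc 1 (n - 1), (m S j i : K n) * (m S j (i - 1) : K n)) := by
    rw [← sum_sub_distrib, mul_sum]
    apply sum_congr rfl
    intro i _
    ring
  rw [h4, h3, sub_self, mul_zero]

theorem sum_m (S : Listing n k) {j : ℕ} (hj : j ≤ k * (n - k)) :
    ∑ i ∈ Icc 1 (n - 1), m S j i = j := by
  classical
  have h1 : ∑ i ∈ Icc 1 (n - 1), m S j i = ∑ i ∈ Icc 1 (n - 1),
      ((univ.filter fun t : Fin (k * (n - k)) => t.val < j).filter
        fun t => label k (S t).val = i).card := by
    apply sum_congr rfl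
    intro i hi
    rw [mem_Icc] at hi
    rw [m, if_neg (by omega), filter_filter]
  rw [h1, ← card_eq_sum_card_fiberwise]
  · have : (univ.filter fun t : Fin (k * (n - k)) => t.val < j).card = j := by
      rw [Fin.card_filter_val_lt]
      omega
    exact this
  · intro t _
    rw [coe_Icc]
    exact label_bounds (S t).2

theorem w_ne_zero (S : Listing n k) {j : ℕ} (hj1 : 1 ≤ j) (hj : j ≤ k * (n - k)) :
    w S j ≠ 0 := by
  let p : MvPolynomial (Fin (n + 1)) ℂ := ∑ i ∈ Icc 1 (n - 1),
    (MvPolynomial.X 0 * (m S j i : MvPolynomial (Fin (n + 1)) ℂ) *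
      ((m S j i : MvPolynomial (Fin (n + 1)) ℂ) - (m S j (i + 1) : MvPolynomial (Fin (n + 1)) ℂ))
    + (m S j i : MvPolynomial (Fin (n + 1)) ℂ) *
      (MvPolynomial.X (Fin.ofNat (n + 1) (i + 1)) - MvPolynomial.X (Fin.ofNat (n + 1) i)))
  have hp : algebraMap (MvPolynomial (Fin (n + 1)) ℂ) (K n) p = w S j := by
    simp only [p, w, hbar, a, map_sum, map_add, map_mul, map_sub, map_natCast]
  rw [← hp]
  intro h
  have hp0 : p = 0 := by
    apply IsFractionRing.injective (MvPolynomial (Fin (n + 1)) ℂ) (K n)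
    rw [h, map_zero]
  have he : MvPolynomial.eval (fun i : Fin (n + 1) => (i.val : ℂ)) p = (j : ℂ) := by
    have h2 : (j : ℂ) = ((∑ i ∈ Icc 1 (n - 1), m S j i : ℕ) : ℂ) := by rw [sum_m S hj]
    rw [h2]
    simp only [p, map_sum, map_add, map_mul, map_sub, map_natCast, MvPolynomial.eval_X,
      Nat.cast_sum]
    apply sum_congr rfl
    intro i hi
    rw [mem_Icc] at hi
    have e0 : ((0 : Fin (n + 1)).val : ℂ) = 0 := by simp
    have e1 : (Fin.ofNat (n + 1) (i + 1)).val = i + 1 := by
      simp only [Fin.ofNat]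
      exact Nat.mod_eq_of_lt (by omega)
    have e2 : (Fin.ofNat (n + 1) i).val = i := by
      simp only [Fin.ofNat]
      exact Nat.mod_eq_of_lt (by omega)
    rw [e0, e1, e2]
    push_cast
    ring
  rw [hp0, map_zero] at he
  have : (j : ℂ) ≠ 0 := by exact_mod_cast (by omega : j ≠ 0)
  exact this he.symm

theorem V_symm (hkn : k ≤ n) {α : K n ≃ₐ[ℂ] K n} (hα : IsAlpha n α) {lam : Finset (ℕ × ℕ)}
    (hlam : lam ⊆ Rect n k) : V n k lam = α (V n k (compl n k lam)) := by
  classical
  rw [V, V, map_sum]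
  apply sum_bij (fun S _ => S.trans (rotE n k))
  · intro S hS
    rw [mem_filter] at hS ⊢
    exact ⟨mem_univ _, (isPath_rot hlam S).mpr hS.2⟩
  · intro S _ S' _ e
    ext t
    have := congrArg (fun f : Listing n k => (rotE n k).symm (f t)) e
    simp only [Equiv.trans_apply, Equiv.symm_apply_apply] at this
    rw [this]
    · have := congrArg (fun f : Listing n k => (rotE n k).symm (f t)) e
      simp only [Equiv.trans_apply, Equiv.symm_apply_apply] at this
      rw [this]
  · intro S hS
    rw [mem_filter] at hS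
    refine ⟨S.trans (rotE n k).symm, ?_, ?_⟩
    · rw [mem_filter]
      refine ⟨mem_univ _, ?_⟩
      rw [← isPath_rot hlam]
      have : (S.trans (rotE n k).symm).trans (rotE n k) = S := by
        ext t
        · simp
        · simp
      rw [this]
      exact hS.2
    · ext t
      · simp
      · simp
  · intro S _
    rw [map_prod]
    apply prod_congr rfl
    intro j _
    rw [map_div₀, map_one, alpha_w hkn hα]

/-- The substitution on polynomials. -/
noncomputable def subst (n : ℕ) :
    MvPolynomial (Fin (n + 1)) ℂ →ₐ[ℂ] MvPolynomial (Fin (n + 1)) ℂ :=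
  MvPolynomial.aeval fun i : Fin (n + 1) =>
    if i = 0 then MvPolynomial.X 0 else -MvPolynomial.X (Fin.ofNat (n + 1) (n + 1 - i.val))

theorem subst_zero (n : ℕ) : subst n (MvPolynomial.X 0) = MvPolynomial.X 0 := by
  simp [subst]

theorem subst_ofNat (n : ℕ) {i : ℕ} (h1 : 1 ≤ i) (h2 : i ≤ n) :
    subst n (MvPolynomial.X (Fin.ofNat (n + 1) i)) =
      -MvPolynomial.X (Fin.ofNat (n + 1) (n + 1 - i)) := by
  have e : (Fin.ofNat (n + 1) i).val = i := by
    simp only [Fin.ofNat]
    exact Nat.mod_eq_of_lt (by omega)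
  have e' : Fin.ofNat (n + 1) i ≠ 0 := by
    intro h
    have := congrArg Fin.val h
    rw [e] at this
    simp at this
    omega
  rw [subst, MvPolynomial.aeval_X, if_neg e', e]

theorem subst_subst (n : ℕ) : (subst n).comp (subst n) = AlgHom.id ℂ _ := by
  apply MvPolynomial.algHom_ext
  intro i
  rw [AlgHom.comp_apply, AlgHom.id_apply]
  by_cases h : i = 0
  · rw [h, subst_zero, subst_zero]
  · have hi : i = Fin.ofNat (n + 1) i.val := by
      apply Fin.ext
      simp only [Fin.ofNat]
      exact (Nat.mod_eq_of_lt i.2).symm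
    have hpos : 1 ≤ i.val := by
      rcases Nat.eq_zero_or_pos i.val with h0 | h0
      · exact absurd (Fin.ext h0) h
      · exact h0
    have hlt := i.2
    rw [hi, subst_ofNat n hpos (by omega), map_neg, subst_ofNat n (by omega) (by omega), neg_neg]
    congr 2
    omega

/-- The automorphism of the polynomial ring. -/
noncomputable def substE (n : ℕ) :
    MvPolynomial (Fin (n + 1)) ℂ ≃ₐ[ℂ] MvPolynomial (Fin (n + 1)) ℂ :=
  AlgEquiv.ofAlgHom (subst n) (subst n) (subst_subst n) (subst_subst n)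

theorem substE_apply (n : ℕ) (p : MvPolynomial (Fin (n + 1)) ℂ) : substE n p = subst n p := rfl

theorem exists_alpha (n : ℕ) : ∃! α : K n ≃ₐ[ℂ] K n, IsAlpha n α := by
  refine ⟨IsFractionRing.algEquivOfAlgEquiv (substE n), ?_, ?_⟩
  · constructor
    · rw [hbar, IsFractionRing.algEquivOfAlgEquiv_algebraMap, substE_apply, subst_zero]
    · intro i h1 h2
      rw [a, a, IsFractionRing.algEquivOfAlgEquiv_algebraMap, substE_apply, subst_ofNat n h1 h2,
        map_neg]
  · intro β hβ
    have key : ∀ p : MvPolynomial (Fin (n + 1)) ℂ,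
        β (algebraMap _ (K n) p) = algebraMap _ (K n) (subst n p) := by
      intro p
      have : ((β : K n →ₐ[ℂ] K n).comp (IsScalarTower.toAlgHom ℂ
          (MvPolynomial (Fin (n + 1)) ℂ) (K n))) = ((IsScalarTower.toAlgHom ℂ
          (MvPolynomial (Fin (n + 1)) ℂ) (K n)).comp (subst n)) := by
        apply MvPolynomial.algHom_ext
        intro i
        simp only [AlgHom.comp_apply, IsScalarTower.coe_toAlgHom']
        by_cases h : i = 0
        · rw [h, subst_zero]
          exact hβ.1
        · have hi : i = Fin.ofNat (n + 1) i.val := by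
            apply Fin.ext
            simp only [Fin.ofNat]
            exact (Nat.mod_eq_of_lt i.2).symm
          have hpos : 1 ≤ i.val := by
            rcases Nat.eq_zero_or_pos i.val with h0 | h0
            · exact absurd (Fin.ext h0) h
            · exact h0
          have hlt := i.2
          rw [hi, subst_ofNat n hpos (by omega), map_neg]
          exact hβ.2 i.val hpos (by omega)
      exact DFunLike.congr_fun this p
    ext x
    obtain ⟨p, q, hq, rfl⟩ := IsFractionRing.div_surjective (A := MvPolynomial (Fin (n + 1)) ℂ) x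
    rw [map_div₀, map_div₀, key, key, IsFractionRing.algEquivOfAlgEquiv_algebraMap,
      IsFractionRing.algEquivOfAlgEquiv_algebraMap, substE_apply, substE_apply]

end proofs

/-- For all `n ≥ 2` there is exactly one automorphism `α`, and for all `1 ≤ k ≤ n - 1` and all
partitions `lam` in the rectangle, no weight `w_j` is zero and `V(lam) = α (V(lam^c))`. Moreover
the rotation of boxes matches the paths to `lam` with those to `lam^c` weight by weight. -/
theorem result (n : ℕ) (hn : 2 ≤ n) :
    (∃! α : K n ≃ₐ[ℂ] K n, IsAlpha n α) ∧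
    ∀ α : K n ≃ₐ[ℂ] K n, IsAlpha n α → ∀ k, 1 ≤ k → k ≤ n - 1 →
      ∀ lam : Finset (ℕ × ℕ), IsDiagram n k lam →
        V n k lam = α (V n k (compl n k lam)) ∧
        (∀ S : Listing n k, ∀ j, 1 ≤ j → j ≤ k * (n - k) → w S j ≠ 0) ∧
        ∃ f : Listing n k ≃ Listing n k,
          (∀ S t, ((f S) t).val = rot n k (S t).val) ∧
          (∀ S, IsPath lam S ↔ IsPath (compl n k lam) (f S)) ∧
          ∀ S j, w S j = α (w (f S) j) := by
  refine ⟨exists_alpha n, ?_⟩
  intro α hα k hk1 hk2 lam hlam
  have hkn : k ≤ n := by omega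
  refine ⟨V_symm hkn hα hlam.1, fun S j h1 h2 => w_ne_zero S h1 h2, ?_⟩
  refine ⟨⟨fun S => S.trans (rotE n k), fun S => S.trans (rotE n k).symm, ?_, ?_⟩, ?_, ?_, ?_⟩
  · intro S
    simp only
    rw [Equiv.trans_assoc, Equiv.self_trans_symm, Equiv.trans_refl]
  · intro S
    simp only
    rw [Equiv.trans_assoc, Equiv.symm_trans_self, Equiv.trans_refl]
  · intro S t
    rfl
  · intro S
    exact (isPath_rot hlam.1 S).symm
  · intro S j
    exact (alpha_w hkn hα S j).symm

end Pool.Agent.Results.MP_5ac669_co.ComplementSymmetry
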